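import Pool.Agent.Helper47.RFn.GoalsA

/-!
MP_c98eff_gt, project RFn, packet ALG1: the Jacobi identities `V,H,H` and `H,H,H`.
-/

set_option autoImplicit false

open Finset

namespace Pool.Agent.Helper47.RFn

namespace ALG1

variable {n : ℕ} {T : ℝ} (F : FB n T)

theorem H_dl (e a b : Ix n) (f : F.B) : F.H e (F.dl a b * f) = F.dl a b * F.H e f := by
  unfold FB.dl; split_ifs <;> simp

theorem V_dl (k l a b : Ix n) (f : F.B) : F.V k l (F.dl a b * f) = F.dl a b * F.V k l f := by
  unfold FB.dl; split_ifs <;> simp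

theorem sum_dl (l : Ix n) (g : Ix n → F.B) : ∑ c, F.dl l c * g c = g l := by
  simp [FB.dl]

/-- the bracket -/
def br (a b : Ix n) (f : F.B) : F.B := F.H a (F.H b f) - F.H b (F.H a f)

theorem br_eq (hF : F.Base) (a b : Ix n) (f : F.B) :
    br F a b f = (-(1 / 2) : ℝ) • ∑ c, ∑ d, F.R a b c d * F.V c d f := hF.HH a b f

theorem half_inj {x y : F.B} (h : (-(1 / 2) : ℝ) • x = (-(1 / 2) : ℝ) • y) : x = y := by
  have h2 := congrArg (fun z => (-2 : ℝ) • z) h
  simp only [smul_smul] at h2
  norm_num at h2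
  exact h2

theorem vbr (hF : F.Base) (k l a b : Ix n) (f : F.B) :
    F.V k l (br F a b f) = br F a b (F.V k l f) + F.dl l b * br F a k f - F.dl k b * br F a l f
      + F.dl l a * br F k b f - F.dl k a * br F l b f := by
  have h1 := hF.VH k l a (F.H b f)
  have h2 := hF.VH k l b (F.H a f)
  have h3 := congrArg (F.H a) (hF.VH k l b f)
  have h4 := congrArg (F.H b) (hF.VH k l a f)
  simp only [map_sub, H_dl] at h3 h4
  simp only [br, map_sub]
  linear_combination h1 - h2 + h3 - h4

theorem sum2_dl1 (l : Ix n) (g : Ix n → Ix n → F.B) :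
    ∑ c, ∑ d, F.dl l c * g c d = ∑ d, g l d := by
  simp only [← Finset.mul_sum]
  exact sum_dl F l (fun c => ∑ d, g c d)

theorem sum2_dl2 (l : Ix n) (g : Ix n → Ix n → F.B) :
    ∑ c, ∑ d, F.dl l d * g c d = ∑ c, g c l :=
  Finset.sum_congr rfl fun c _ => sum_dl F l (g c)

/-- the coefficients -/
theorem key1 (hF : F.Base) (k l a b : Ix n) (f : F.B) :
    ∑ c, ∑ d, (F.V k l (F.R a b c d) - (
    F.dl l a * F.R k b c d - F.dl k a * F.R l b c d + F.dl l b * F.R a k c d - F.dl k b * F.R a l c d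
    + F.dl l c * F.R a b k d - F.dl k c * F.R a b l d + F.dl l d * F.R a b c k
      - F.dl k d * F.R a b c l)) * F.V c d f = 0 := by
  have h := vbr F hF k l a b f
  simp only [br_eq F hF] at h
  have e1 : F.V k l ((-(1 / 2) : ℝ) • ∑ c, ∑ d, F.R a b c d * F.V c d f) =
      (-(1 / 2) : ℝ) • ∑ c, ∑ d, (F.V k l (F.R a b c d) * F.V c d f
        + F.R a b c d * F.V k l (F.V c d f)) := by
    rw [Derivation.map_smul, map_sum]
    refine congrArg _ (Finset.sum_congr rfl fun c _ => ?_)
    rw [map_sum]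
    refine Finset.sum_congr rfl fun d _ => ?_
    rw [Derivation.leibniz, smul_eq_mul, smul_eq_mul]
    ring
  rw [e1] at h
  simp only [mul_smul_comm, ← smul_add, ← smul_sub] at h
  have h2 := half_inj F h
  have e2 : ∑ c, ∑ d, F.R a b c d * F.V k l (F.V c d f) =
      ∑ c, ∑ d, F.R a b c d * F.V c d (F.V k l f)
      + (∑ d, F.R a b l d * F.V k d f - ∑ d, F.R a b k d * F.V l d f
        - ∑ c, F.R a b c l * F.V k c f + ∑ c, F.R a b c k * F.V l c f) := by
    have s1 := sum2_dl1 F l (fun c d => F.R a b c d * F.V k d f)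
    have s2 := sum2_dl1 F k (fun c d => F.R a b c d * F.V l d f)
    have s3 := sum2_dl2 F l (fun c d => F.R a b c d * F.V k c f)
    have s4 := sum2_dl2 F k (fun c d => F.R a b c d * F.V l c f)
    rw [← s1, ← s2, ← s3, ← s4]
    simp only [← Finset.sum_add_distrib, ← Finset.sum_sub_distrib]
    refine Finset.sum_congr rfl fun c _ => Finset.sum_congr rfl fun d _ => ?_
    linear_combination F.R a b c d * hF.VV k l c d f
  have t1 := sum2_dl1 F k (fun c d => F.R a b l d * F.V c d f)
  have t2 := sum2_dl1 F l (fun c d => F.R a b k d * F.V c d f)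
  have t3 := sum2_dl2 F k (fun c d => F.R a b c l * F.V c d f)
  have t4 := sum2_dl2 F l (fun c d => F.R a b c k * F.V c d f)
  have t3' : ∑ c, F.R a b c l * F.V c k f = - ∑ c, F.R a b c l * F.V k c f := by
    rw [← Finset.sum_neg_distrib]
    exact Finset.sum_congr rfl fun c _ => by rw [hF.Vanti c k]; ring
  have t4' : ∑ c, F.R a b c k * F.V c l f = - ∑ c, F.R a b c k * F.V l c f := by
    rw [← Finset.sum_neg_distrib]
    exact Finset.sum_congr rfl fun c _ => by rw [hF.Vanti c l]; ring
  simp only [Finset.sum_add_distrib] at h2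
  rw [e2] at h2
  have goal : ∑ c, ∑ d, (F.V k l (F.R a b c d) - (
    F.dl l a * F.R k b c d - F.dl k a * F.R l b c d + F.dl l b * F.R a k c d - F.dl k b * F.R a l c d
    + F.dl l c * F.R a b k d - F.dl k c * F.R a b l d + F.dl l d * F.R a b c k
      - F.dl k d * F.R a b c l)) * F.V c d f
    = ∑ c, ∑ d, F.V k l (F.R a b c d) * F.V c d f
      - (F.dl l a * ∑ c, ∑ d, F.R k b c d * F.V c d f
        - F.dl k a * ∑ c, ∑ d, F.R l b c d * F.V c d f
        + F.dl l b * ∑ c, ∑ d, F.R a k c d * F.V c d f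
        - F.dl k b * ∑ c, ∑ d, F.R a l c d * F.V c d f
        + ∑ c, ∑ d, F.dl l c * (F.R a b k d * F.V c d f)
        - ∑ c, ∑ d, F.dl k c * (F.R a b l d * F.V c d f)
        + ∑ c, ∑ d, F.dl l d * (F.R a b c k * F.V c d f)
        - ∑ c, ∑ d, F.dl k d * (F.R a b c l * F.V c d f)) := by
    simp only [Finset.mul_sum, ← Finset.sum_add_distrib, ← Finset.sum_sub_distrib]
    exact Finset.sum_congr rfl fun c _ => Finset.sum_congr rfl fun d _ => by ring
  rw [goal, t1, t2, t3, t4, t3', t4']
  linear_combination h2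

theorem vr (hF : F.Base) (k l a b c d : Ix n) : F.V k l (F.R a b c d) =
    F.dl l a * F.R k b c d - F.dl k a * F.R l b c d + F.dl l b * F.R a k c d - F.dl k b * F.R a l c d
    + F.dl l c * F.R a b k d - F.dl k c * F.R a b l d + F.dl l d * F.R a b c k
      - F.dl k d * F.R a b c l := by
  have h := hF.ind (fun _ => 0) (fun c d => F.V k l (F.R a b c d) - (
    F.dl l a * F.R k b c d - F.dl k a * F.R l b c d + F.dl l b * F.R a k c d - F.dl k b * F.R a l c d
    + F.dl l c * F.R a b k d - F.dl k c * F.R a b l d + F.dl l d * F.R a b c k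
      - F.dl k d * F.R a b c l)) (by
      intro c d
      rw [hF.R34 a b c d, hF.R34 k b c d, hF.R34 l b c d, hF.R34 a k c d, hF.R34 a l c d,
        hF.R34 a b k d, hF.R34 a b l d, hF.R34 a b c k, hF.R34 a b c l]
      rw [map_neg]
      ring) (by
      intro f
      simp only [zero_mul, Finset.sum_const_zero, zero_add]
      exact key1 F hF k l a b f)
  exact sub_eq_zero.1 (h.2 c d)

/-- double bracket -/
theorem hbr (hF : F.Base) (c a b : Ix n) (f : F.B) :
    F.H c (br F a b f) - br F a b (F.H c f) =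
      (-(1 / 2) : ℝ) • ∑ d, ∑ e, F.H c (F.R a b d e) * F.V d e f - ∑ d, F.R a b c d * F.H d f := by
  rw [br_eq F hF, br_eq F hF]
  have e1 : F.H c ((-(1 / 2) : ℝ) • ∑ d, ∑ e, F.R a b d e * F.V d e f) =
      (-(1 / 2) : ℝ) • ∑ d, ∑ e, (F.H c (F.R a b d e) * F.V d e f
        + F.R a b d e * F.H c (F.V d e f)) := by
    rw [Derivation.map_smul, map_sum]
    refine congrArg _ (Finset.sum_congr rfl fun d _ => ?_)
    rw [map_sum]
    refine Finset.sum_congr rfl fun e _ => ?_
    rw [Derivation.leibniz, smul_eq_mul, smul_eq_mul]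
    ring
  have e2 : ∑ d, ∑ e, F.R a b d e * F.H c (F.V d e f) =
      ∑ d, ∑ e, F.R a b d e * F.V d e (F.H c f)
      + (2 : ℝ) • ∑ d, F.R a b c d * F.H d f := by
    have s1 := sum2_dl1 F c (fun d e => F.R a b d e * F.H e f)
    have s2 := sum2_dl2 F c (fun d e => F.R a b d e * F.H d f)
    have s3 : ∑ d, F.R a b d c * F.H d f = - ∑ d, F.R a b c d * F.H d f := by
      rw [← Finset.sum_neg_distrib]
      exact Finset.sum_congr rfl fun d _ => by rw [hF.R34 a b d c]; ring
    have s4 : (2 : ℝ) • ∑ d, F.R a b c d * F.H d f =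
        ∑ d, F.R a b c d * F.H d f - ∑ d, F.R a b d c * F.H d f := by
      rw [s3, two_smul]; ring
    rw [s4, ← s1, ← s2]
    simp only [← Finset.sum_add_distrib, ← Finset.sum_sub_distrib]
    refine Finset.sum_congr rfl fun d _ => Finset.sum_congr rfl fun e _ => ?_
    have sym : ∀ x y : Ix n, F.dl x y = F.dl y x := by
      intro x y
      unfold FB.dl
      by_cases h : x = y
      · simp [h]
      · simp [h, Ne.symm h]
    rw [sym c d, sym c e]
    linear_combination -F.R a b d e * hF.VH d e c f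
  rw [e1]
  simp only [Finset.sum_add_distrib]
  rw [e2, smul_add, smul_add, smul_smul]
  norm_num
  ring

theorem jac (c a b : Ix n) (f : F.B) :
    (F.H c (br F a b f) - br F a b (F.H c f)) + (F.H a (br F b c f) - br F b c (F.H a f))
      + (F.H b (br F c a f) - br F c a (F.H b f)) = 0 := by
  simp only [br, map_sub]
  ring

theorem bia (hF : F.Base) (h0 : ∀ a b c, ∑ d, F.R a b c d * F.nu d = 0) (a b c : Ix n) :
    (∀ d, F.R a b c d + F.R b c a d + F.R c a b d = 0) ∧
    (∀ d e, F.H c (F.R a b d e) + F.H a (F.R b c d e) + F.H b (F.R c a d e) = 0) := by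
  have h := hF.ind (fun d => -(F.R a b c d + F.R b c a d + F.R c a b d))
    (fun d e => (-(1 / 2) : ℝ) • (F.H c (F.R a b d e) + F.H a (F.R b c d e) + F.H b (F.R c a d e)))
    (by
      intro d e
      rw [hF.R34 a b d e, hF.R34 b c d e, hF.R34 c a d e]
      simp only [map_neg, ← smul_neg]
      congr 1
      ring) (by
      intro f
      have j := jac F c a b f
      rw [hbr F hF, hbr F hF, hbr F hF] at j
      have e1 : ∑ i, -(F.R a b c i + F.R b c a i + F.R c a b i) * F.H i f =
          -(∑ d, F.R a b c d * F.H d f) - (∑ d, F.R b c a d * F.H d f)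
            - ∑ d, F.R c a b d * F.H d f := by
        simp only [← Finset.sum_neg_distrib, ← Finset.sum_sub_distrib]
        exact Finset.sum_congr rfl fun d _ => by ring
      have e2 : ∑ k, ∑ l, ((-(1 / 2) : ℝ) • (F.H c (F.R a b k l) + F.H a (F.R b c k l)
          + F.H b (F.R c a k l))) * F.V k l f =
          (-(1 / 2) : ℝ) • (∑ d, ∑ e, F.H c (F.R a b d e) * F.V d e f)
          + (-(1 / 2) : ℝ) • (∑ d, ∑ e, F.H a (F.R b c d e) * F.V d e f)
          + (-(1 / 2) : ℝ) • (∑ d, ∑ e, F.H b (F.R c a d e) * F.V d e f) := by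
        simp only [Finset.smul_sum, ← Finset.sum_add_distrib]
        refine Finset.sum_congr rfl fun d _ => Finset.sum_congr rfl fun e _ => ?_
        rw [smul_mul_assoc, ← smul_add, ← smul_add]
        congr 1
        ring
      rw [e1, e2]
      linear_combination j)
  constructor
  · intro d
    have h1 := h.1 d
    have h2 : ∑ j, F.nu j * -(F.R a b c j + F.R b c a j + F.R c a b j) = 0 := by
      have e : ∑ j, F.nu j * -(F.R a b c j + F.R b c a j + F.R c a b j) =
          -(∑ d, F.R a b c d * F.nu d) - (∑ d, F.R b c a d * F.nu d)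
            - ∑ d, F.R c a b d * F.nu d := by
        simp only [← Finset.sum_neg_distrib, ← Finset.sum_sub_distrib]
        exact Finset.sum_congr rfl fun d _ => by ring
      rw [e, h0, h0, h0]; ring
    rw [h2, mul_zero] at h1
    exact neg_eq_zero.1 h1
  · intro d e
    have h1 := h.2 d e
    have h2 : (-(1 / 2) : ℝ) • (F.H c (F.R a b d e) + F.H a (F.R b c d e) + F.H b (F.R c a d e))
        = (-(1 / 2) : ℝ) • (0 : F.B) := by rw [h1, smul_zero]
    exact half_inj F h2

theorem pair (hF : F.Base)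
    (hb : ∀ a b c d, F.R a b c d + F.R b c a d + F.R c a b d = 0) (a b c d : Ix n) :
    F.R a b c d = F.R c d a b := by
  have b1 := hb a b c d
  have b2 := hb b c d a
  have b3 := hb c d a b
  have b4 := hb d a b c
  have h : (2 : ℝ) • F.R a b c d = (2 : ℝ) • F.R c d a b := by
    rw [two_smul, two_smul]
    have p1 := hF.R12 c a b d
    have p2 := hF.R34 b c d a
    have p3 := hF.R34 c d b a
    have p4 := hF.R12 d b c a
    have p5 := hF.R34 b d c a
    have p6 := hF.R12 d a c b
    have p7 := hF.R34 a d c b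
    have p8 := hF.R34 a c d b
    have p9 := hF.R12 d a b c
    have p10 := hF.R34 a b d c
    linear_combination b1 - b3 - b4 + b2 - p1 - p2 - p3 - p4 + p5 + p6 - p7 + p8 + p9 + p10
  have h2 := congrArg (fun z => (1 / 2 : ℝ) • z) h
  simp only [smul_smul] at h2
  norm_num at h2
  exact h2

end ALG1

/-- packet ALG1 -/
theorem goal_ALG1 (hALG0 : Goal_ALG0) : Goal_ALG1 := by
  intro n T F hF
  have h0 := hALG0 n T F hF
  have hb : ∀ a b c d, F.R a b c d + F.R b c a d + F.R c a b d = 0 :=
    fun a b c d => (ALG1.bia F hF h0 a b c).1 d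
  exact ⟨ALG1.vr F hF, hb, ALG1.pair F hF hb,
    fun e a b c d => (ALG1.bia F hF h0 a b e).2 c d⟩

end Pool.Agent.Helper47.RFn
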