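import Pool.Agent.Helper47.RFn.Alg

/-!
# Project RFn, packet DG: diagonalisation
-/

namespace Pool.Agent.Helper47.RFn

open Finset

theorem dg_swap {n : ℕ} {K : Type*} [Fintype K] (F : K → Fin n → Fin n → Fin n → Fin n → ℂ) :
    ∑ a, ∑ b, ∑ c, ∑ d, ∑ κ, F κ a b c d = ∑ κ, ∑ a, ∑ b, ∑ c, ∑ d, F κ a b c d := by
  calc ∑ a, ∑ b, ∑ c, ∑ d, ∑ κ, F κ a b c d
      = ∑ a, ∑ b, ∑ c, ∑ κ, ∑ d, F κ a b c d :=
        sum_congr rfl fun a _ => sum_congr rfl fun b _ => sum_congr rfl fun c _ => sum_comm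
    _ = ∑ a, ∑ b, ∑ κ, ∑ c, ∑ d, F κ a b c d :=
        sum_congr rfl fun a _ => sum_congr rfl fun b _ => sum_comm
    _ = ∑ a, ∑ κ, ∑ b, ∑ c, ∑ d, F κ a b c d := sum_congr rfl fun a _ => sum_comm
    _ = ∑ κ, ∑ a, ∑ b, ∑ c, ∑ d, F κ a b c d := sum_comm

theorem dg_qf {n : ℕ} {K : Type*} [Fintype K] (R : T4 n) (s : K → ℝ)
    (U : K → Fin n → Fin n → ℝ)
    (hR : ∀ a b c d, R a b c d = ∑ κ, s κ * (U κ a b * U κ c d)) (z w : Fin n → ℂ) :
    qf R z w = ∑ κ, s κ * Complex.normSq (∑ a, ∑ b, (U κ a b : ℂ) * z a * w b) := by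
  have h1 : ∀ a b c d, (R a b c d : ℂ) * z a * w b * star (z c) * star (w d) =
      ∑ κ, (s κ : ℂ) * (((U κ a b : ℂ) * z a * w b) * star ((U κ c d : ℂ) * z c * w d)) := by
    intro a b c d
    rw [hR, Complex.ofReal_sum, Finset.sum_mul, Finset.sum_mul, Finset.sum_mul, Finset.sum_mul]
    refine sum_congr rfl fun κ _ => ?_
    rw [Complex.ofReal_mul, Complex.ofReal_mul, star_mul', star_mul', Complex.star_def,
      Complex.conj_ofReal]
    ring
  have h2 : ∑ a, ∑ b, ∑ c, ∑ d, (R a b c d : ℂ) * z a * w b * star (z c) * star (w d) =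
      ∑ κ, (s κ : ℂ) * ((∑ a, ∑ b, (U κ a b : ℂ) * z a * w b) *
        star (∑ a, ∑ b, (U κ a b : ℂ) * z a * w b)) := by
    simp only [h1]
    rw [dg_swap (fun κ a b c d => (s κ : ℂ) * (((U κ a b : ℂ) * z a * w b) *
      star ((U κ c d : ℂ) * z c * w d)))]
    refine sum_congr rfl fun κ _ => ?_
    rw [star_sum, Finset.sum_mul, Finset.mul_sum]
    refine sum_congr rfl fun a _ => ?_
    rw [Finset.sum_mul, Finset.mul_sum]
    refine sum_congr rfl fun b _ => ?_
    rw [Finset.mul_sum, Finset.mul_sum]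
    refine sum_congr rfl fun c _ => ?_
    rw [star_sum, Finset.mul_sum, Finset.mul_sum]
  unfold qf
  rw [h2, Complex.re_sum]
  refine sum_congr rfl fun κ _ => ?_
  rw [Complex.star_def, Complex.mul_conj, ← Complex.ofReal_mul, Complex.ofReal_re]

theorem dg_wdg {n : ℕ} (A B : M2 n) (p q : Fin n → ℝ) (e : Fin n → Fin n → ℝ)
    (hA : ∀ a b, A a b = ∑ k, p k * (e k a * e k b))
    (hB : ∀ a b, B a b = ∑ k, q k * (e k a * e k b)) (a b c d : Fin n) :
    wdg A B a b c d = ∑ k, ∑ l, (p k * q l + q k * p l) / 4 *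
      ((e k a * e l b - e l a * e k b) * (e k c * e l d - e l c * e k d)) := by
  set f : Fin n → Fin n → ℝ := fun k l => (p k * q l + q k * p l) / 4 *
    ((e k a * e l b) * (e k c * e l d - e l c * e k d)) with hf
  have h1 : ∀ k l, (p k * q l + q k * p l) / 4 *
      ((e k a * e l b - e l a * e k b) * (e k c * e l d - e l c * e k d)) = f k l + f l k := by
    intro k l
    simp only [hf]
    ring
  have h2 : ∑ k, ∑ l, (p k * q l + q k * p l) / 4 *
      ((e k a * e l b - e l a * e k b) * (e k c * e l d - e l c * e k d)) =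
      2 * ∑ k, ∑ l, f k l := by
    simp only [h1, Finset.sum_add_distrib]
    rw [Finset.sum_comm (f := fun k l => f l k)]
    ring
  have m : ∀ (C D : M2 n) (r s : Fin n → ℝ), (∀ a b, C a b = ∑ k, r k * (e k a * e k b)) →
      (∀ a b, D a b = ∑ k, s k * (e k a * e k b)) → ∀ i j k' l',
      C i j * D k' l' = ∑ k, ∑ l, (r k * (e k i * e k j)) * (s l * (e l k' * e l l')) := by
    intro C D r s hC hD i j k' l'
    rw [hC, hD, Finset.sum_mul_sum]
  rw [h2]
  unfold wdg
  rw [m A B p q hA hB a c b d, m A B p q hA hB a d b c, m B A q p hB hA a c b d,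
    m B A q p hB hA a d b c, ← Finset.sum_sub_distrib, ← Finset.sum_add_distrib,
    ← Finset.sum_sub_distrib, Finset.sum_div, Finset.mul_sum]
  refine sum_congr rfl fun k _ => ?_
  rw [← Finset.sum_sub_distrib, ← Finset.sum_add_distrib,
    ← Finset.sum_sub_distrib, Finset.sum_div, Finset.mul_sum]
  refine sum_congr rfl fun l _ => ?_
  simp only [hf]
  ring

theorem dg_spec {n : ℕ} (A : M2 n) (hA : A.IsSymm) : ∃ (x : Fin n → ℝ) (e : Fin n → Fin n → ℝ),
    (∀ k l, ∑ i, e k i * e l i = if k = l then 1 else 0) ∧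
    (∀ k, A.mulVec (e k) = x k • e k) ∧
    (∀ a b, (1 : M2 n) a b = ∑ k, 1 * (e k a * e k b)) ∧
    (∀ a b, A a b = ∑ k, x k * (e k a * e k b)) ∧
    (∀ a b, (A * A) a b = ∑ k, x k ^ 2 * (e k a * e k b)) := by
  have hH : A.IsHermitian := by
    rw [Matrix.IsHermitian, Matrix.conjTranspose_eq_transpose_of_trivial]
    exact hA
  set e : Fin n → Fin n → ℝ := fun k i => hH.eigenvectorBasis k i with he
  have h1 : ∀ k l, ∑ i, e k i * e l i = if k = l then 1 else 0 := by
    intro k l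
    have h := (orthonormal_iff_ite.1 hH.eigenvectorBasis.orthonormal) l k
    rw [PiLp.inner_apply] at h
    simp only [RCLike.inner_apply, conj_trivial] at h
    simp only [he]
    rw [h]
    by_cases hkl : k = l
    · rw [if_pos hkl, if_pos hkl.symm]
    · rw [if_neg hkl, if_neg fun h' => hkl h'.symm]
  have h2 : ∀ k, A.mulVec (e k) = hH.eigenvalues k • e k := fun k =>
    hH.mulVec_eigenvectorBasis k
  have h3 : ∀ a b, ∑ k, e k a * e k b = if a = b then 1 else 0 := by
    have hm : (Matrix.of e) * (Matrix.of e).transpose = 1 := by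
      ext k l
      rw [Matrix.mul_apply, Matrix.one_apply]
      exact h1 k l
    have hm' : (Matrix.of e).transpose * (Matrix.of e) = 1 := mul_eq_one_comm.1 hm
    intro a b
    have h := congrFun (congrFun hm' a) b
    rw [Matrix.mul_apply, Matrix.one_apply] at h
    exact h
  have h4 : ∀ a b, A a b = ∑ k, hH.eigenvalues k * (e k a * e k b) := by
    intro a b
    have e1 : A a b = ∑ c, A a c * ∑ k, e k c * e k b := by
      simp only [h3]
      simp
    have e2 : ∀ k, ∑ c, A a c * e k c = hH.eigenvalues k * e k a := by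
      intro k
      have h := congrFun (h2 k) a
      rw [Matrix.mulVec, dotProduct] at h
      rw [h]
      rfl
    rw [e1]
    simp only [Finset.mul_sum]
    rw [Finset.sum_comm]
    refine sum_congr rfl fun k _ => ?_
    rw [← mul_assoc, ← e2 k, Finset.sum_mul]
    refine sum_congr rfl fun c _ => ?_
    ring
  refine ⟨hH.eigenvalues, e, h1, h2, fun a b => ?_, h4, fun a b => ?_⟩
  · simp only [one_mul]
    rw [h3, Matrix.one_apply]
  · have e2 : ∀ k, ∑ c, A a c * e k c = hH.eigenvalues k * e k a := by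
      intro k
      have h := congrFun (h2 k) a
      rw [Matrix.mulVec, dotProduct] at h
      rw [h]
      rfl
    rw [Matrix.mul_apply]
    simp only [fun c => h4 c b, Finset.mul_sum]
    rw [Finset.sum_comm]
    refine sum_congr rfl fun k _ => ?_
    have e3 : hH.eigenvalues k ^ 2 * (e k a * e k b) =
        hH.eigenvalues k * (hH.eigenvalues k * e k a) * e k b := by ring
    rw [e3, ← e2 k, Finset.mul_sum, Finset.sum_mul]
    refine sum_congr rfl fun c _ => ?_
    ring

theorem goal_DG : Goal_DG := by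
  intro n A α β γ δ c hA hyp z w
  obtain ⟨x, e, h1, h2, h3, h4, h5⟩ := dg_spec A hA
  set D : Fin n → Fin n → ℝ := fun k l =>
    α * (x k * x l) + β * ((x k + x l) / 2) + γ * ((x k ^ 2 + x l ^ 2) / 2) + δ with hD
  set U : Fin n × Fin n → Fin n → Fin n → ℝ :=
    fun κ a b => e κ.1 a * e κ.2 b - e κ.2 a * e κ.1 b with hU
  have hI : ∀ a b c d, Id4 n a b c d = ∑ κ : Fin n × Fin n, (1 / 2) * (U κ a b * U κ c d) := by
    intro a b c d
    rw [Fintype.sum_prod_type]
    unfold Id4
    rw [dg_wdg 1 1 (fun _ => 1) (fun _ => 1) e h3 h3]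
    refine sum_congr rfl fun k _ => sum_congr rfl fun l _ => ?_
    simp only [hU]
    ring
  have hR : ∀ a b c d, (α • wdg A A + β • wdg A 1 + γ • wdg (A * A) 1 + δ • Id4 n : T4 n) a b c d =
      ∑ κ : Fin n × Fin n, (D κ.1 κ.2 / 2) * (U κ a b * U κ c d) := by
    intro a b c d
    rw [Fintype.sum_prod_type]
    have e0 : (α • wdg A A + β • wdg A 1 + γ • wdg (A * A) 1 + δ • Id4 n : T4 n) a b c d =
        α * wdg A A a b c d + β * wdg A 1 a b c d + γ * wdg (A * A) 1 a b c d +
          δ * wdg 1 1 a b c d := rfl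
    rw [e0, dg_wdg A A x x e h4 h4, dg_wdg A 1 x (fun _ => 1) e h4 h3,
      dg_wdg (A * A) 1 (fun k => x k ^ 2) (fun _ => 1) e h5 h3,
      dg_wdg 1 1 (fun _ => 1) (fun _ => 1) e h3 h3]
    simp only [Finset.mul_sum]
    rw [← Finset.sum_add_distrib, ← Finset.sum_add_distrib, ← Finset.sum_add_distrib]
    refine sum_congr rfl fun k _ => ?_
    rw [← Finset.sum_add_distrib, ← Finset.sum_add_distrib, ← Finset.sum_add_distrib]
    refine sum_congr rfl fun l _ => ?_
    simp only [hU, hD]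
    ring
  rw [dg_qf _ _ U hI, dg_qf _ _ U hR, Finset.mul_sum]
  refine Finset.sum_le_sum fun κ _ => ?_
  by_cases hκ : κ.1 = κ.2
  · have h0 : ∀ a b, U κ a b = 0 := by
      intro a b
      simp only [hU, hκ]
      ring
    simp only [h0]
    simp
  · have hn : ∀ k, nrm (e k) = 1 := by
      intro k
      have h := h1 k k
      rw [if_pos rfl] at h
      unfold nrm
      rw [← h]
      refine sum_congr rfl fun i _ => by ring
    have ho : ∑ i, e κ.1 i * e κ.2 i = 0 := by
      rw [h1, if_neg hκ]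
    have hc : c ≤ D κ.1 κ.2 := hyp (e κ.1) (e κ.2) (x κ.1) (x κ.2) (hn _) (hn _) ho (h2 _) (h2 _)
    have hp : 0 ≤ Complex.normSq (∑ a, ∑ b, (U κ a b : ℂ) * z a * w b) := Complex.normSq_nonneg _
    nlinarith

end Pool.Agent.Helper47.RFn
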