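import Pool.Agent.Helper19.RFn.GoalsM

/-!
# Packet RFn M-UPL: upper bound for the scalar curvature function on a short time interval
-/

set_option autoImplicit false

open Finset Pool.Agent.Helper47.RFn Pool.Agent.Helper73.RFn

namespace Pool.Agent.Helper16.RFn.UPL

theorem one_mem (n : ℕ) : (one : Ix n → Ix n → ℝ) ∈ OO n := by
  intro a b
  simp [one]

theorem upl : Pool.Agent.Helper19.RFn.UplPStmt := by
  intro hMOD hEM hLNK hFLB hNRO hC1 hC8 hUPB hFJS hJSR hFHM n K hn hK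
  obtain ⟨C2, hC2, hUPB'⟩ := hUPB n hn
  have hE : 0 < 3 + C2 * K := by positivity
  refine ⟨1 / (4 * (3 + C2 * K)), by positivity, ?_⟩
  intro T Q A θ hT hQ hF hcur hini
  have hsub : Set.Ioo 0 T ⊆ Set.Ico 0 T := fun t ht => ⟨ht.1.le, ht.2⟩
  obtain ⟨M, hM⟩ := hMOD n T hT
  obtain ⟨jA, jt, jR⟩ := hFJS n T (Set.Ico 0 T) A θ hT hsub hF
  have mA : MJ T A := fun i j => ⟨(jA i j).cd, (jA i j).hom⟩
  have mt : MJ T θ := fun i j => ⟨(jt i j).cd, (jt i j).hom⟩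
  obtain ⟨-, hfull, hrf, hd, -, -, -⟩ := hFLB n T hT M hM (Set.Ico 0 T) A θ hsub hF mA mt
  obtain ⟨-, -, -, -, -, hN⟩ := hNRO n T hT M hM A θ hF mA mt
  obtain ⟨-, em2, -, -, -, -⟩ := hEM n T hT M hM
  have hpt : ∀ z, M.pt z ≠ 0 := by
    intro z hz
    have := hM.ptn z
    rw [hz, norm_zero] at this
    exact zero_ne_one this
  -- the family `-λ`
  obtain ⟨hjr, hjc, -, -, -, hjs, -⟩ := hJSR n T
  have jlam' : Pool.Agent.Helper73.RFn.JS T (fun t x => -lamf (A t) (θ t) x) := by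
    have h1 : Pool.Agent.Helper73.RFn.JS T (fun t x => ∑ a, Rcf (A t) (θ t) a a x) :=
      hjs (Fin (n + 1)) Finset.univ (fun a t x => Rcf (A t) (θ t) a a x) fun a _ => jR a a
    have h2 := (hjr _ _ (hjc (1 / (n : ℝ))) h1).1
    exact (hjr _ _ h2 h2).2.2.2
  have jlam : Pool.Agent.Helper47.RFn.JS T (fun t x => -lamf (A t) (θ t) x) :=
    ⟨jlam'.cd, jlam'.hom⟩
  have hfrm := (hFHM n).2 (Set.Ico 0 T) A θ hF
  have slam : SmFam (Set.Ico 0 T) (fun t => lamf (A t) (θ t)) := hfrm.2.2.2.1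
  have sneg : SmFam (Set.Ico 0 T) (fun t x => -lamf (A t) (θ t) x) :=
    (hC8 n (Set.Ico 0 T)).2.2.2.2.1 _ slam
  have hem : -(M.flB A θ).lam = M.em (fun t x => -lamf (A t) (θ t) x) := by
    refine em2 _ _ jlam fun z t => ?_
    have h1 : M.ev z t (-(M.flB A θ).lam) = -((M.flB A θ).ev z t (M.flB A θ).lam) :=
      map_neg (M.ev z t) _
    rw [h1, (hd z t).1]
  have hInil : (M.flB A θ).Ini (-(M.flB A θ).lam) (-Q) := by
    rw [hem]
    exact (hN _ jlam sneg).2.2.2.2 (-Q) fun x hx => neg_le_neg (hini x hx)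
  have hpos : ∀ z t, 0 < (M.flB A θ).ev z t (M.flB A θ).lam := by
    intro z t
    rw [(hd z t).1]
    exact (hcur t t.2.1 t.2.2 (M.pt z) (hpt z)).1
  have hpin : ∀ z t, (M.flB A θ).ev z t (M.flB A θ).e2 ≤
      K * (M.flB A θ).ev z t (M.flB A θ).lam ^ 2 := by
    intro z t
    rw [(hd z t).1, (hd z t).2.1]
    exact (hcur t t.2.1 t.2.2 (M.pt z) (hpt z)).2
  have hfin := hUPB' T (M.flB A θ) hfull hrf K Q hK hQ hpos hpin hInil
  intro t ht1 ht2 ht3 x hx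
  have hFt : Frm (A t) (θ t) := hfrm.1 t ⟨ht1.le, ht2⟩
  have hl : Hom0 (lamf (A t) (θ t)) := (slam.sm t ⟨ht1.le, ht2⟩).hom
  have hn0 : 0 < ‖x‖ := norm_pos_iff.2 hx
  have hy : ‖(‖x‖⁻¹ • x : EE n)‖ = 1 := by
    rw [norm_smul, norm_inv, norm_norm, inv_mul_cancel₀ hn0.ne']
  obtain ⟨z, hz, -⟩ := hM.surj (‖x‖⁻¹ • x) one hy (one_mem n)
  have ht4 : t ≤ 1 / (4 * (3 + C2 * K) * Q) := by
    refine ht3.trans_eq ?_
    field_simp
  have hz' := hfin z ⟨t, ht1, ht2⟩ ht4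
  rw [(hd z ⟨t, ht1, ht2⟩).1, hz] at hz'
  simp only at hz'
  rw [hl ‖x‖⁻¹ x (inv_pos.2 hn0)] at hz'
  exact hz'

end Pool.Agent.Helper16.RFn.UPL
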